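import Pool.Agent.H5.BHG.Stmts

/-!
Row PLG of the board `bhg`: the recursion in polynomial time (copy of row PLV of `dpg`, helper48).
-/

set_option autoImplicit false

namespace Pool.BHG

open Filter TMLib Pool.PG Pool.DPG

theorem plg_msk (n : ℕ) (f : ℕ → Bool) : (msk n f).length = n := by simp [msk]

theorem plg_jn (g : Game) (j : Bool) (B L : List Bool) : (jn g j B L).length ≤ g.length := by
  unfold jn
  split_ifs
  · simp
  · rw [plg_msk]

theorem plg_zs (g : Game) (S : List Bool → List Bool) (X L : List Bool) :
    (zs g S X L).length ≤ g.length := by
  unfold zs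
  split_ifs
  · simp
  · rw [plg_msk]
  · exact plg_jn _ _ _ _

section

variable (S : Game → List Bool → List Bool) (C : Game → List (Bool × List Bool))
  (R : Game → List Bool → List Bool)

theorem plg_up (g : Game) (X L : List Bool) : (upp S C R g X L).length ≤ g.length := by
  unfold upp
  split_ifs
  · rw [plg_msk]
  · exact plg_zs _ _ _ _
  · exact plg_jn _ _ _ _

theorem plg_nx (g : Game) (X : List Bool) : (nx S C g X).length = g.length := by
  unfold nx
  split_ifs <;> exact plg_msk _ _

theorem plg_sz (g : Game) (l : List Bool) (h : l.length ≤ g.length) : sz l ≤ 1 + sz g * 4 :=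
  sz_list_le l (sz g) 3 (by have := length_lt_sz g; omega) (fun a _ => sz_bool_le a)

/-- The iterates of `nx`, the last one first. -/
def plgL (g : Game) (X : List Bool) (t : ℕ) : List (List Bool) :=
  (List.range t).reverse.map fun k => (nx S C g)^[k] X

/-- A step. -/
def plgS (s : Game × List (List Bool)) : Game × List (List Bool) :=
  (s.1, nx S C s.1 (s.2.headD []) :: s.2)

theorem plgL_succ (g : Game) (X : List Bool) (t : ℕ) :
    plgL S C g X (t + 1) = (nx S C g)^[t] X :: plgL S C g X t := by
  simp [plgL, List.range_succ]

theorem plg_it (g : Game) (X : List Bool) : ∀ t : ℕ,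
    (plgS S C)^[t] (g, [X]) = (g, plgL S C g X (t + 1)) := by
  intro t
  induction t with
  | zero => simp [plgL]
  | succ t ih =>
    rw [Function.iterate_succ_apply', ih, plgL_succ S C g X (t + 1), plgS]
    simp only [plgL_succ S C g X t, List.headD_cons]
    rw [Function.iterate_succ_apply']

theorem plg_rc (g : Game) : ∀ (t : ℕ) (X : List Bool),
    rcg S C R g t X = (plgL S C g X t).foldl (fun L Z => upp S C R g Z L) [] := by
  intro t
  induction t with
  | zero => intro X; simp [rcg, plgL]
  | succ t ih =>
    intro X
    have h : plgL S C g X (t + 1) = plgL S C g (nx S C g X) t ++ [X] := by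
      simp only [plgL, List.range_succ_eq_map, List.reverse_cons, List.map_append,
        ← List.map_reverse, List.map_map, List.map_cons, List.map_nil]
      rfl
    rw [rcg, ih, h, List.foldl_append]
    rfl

end

theorem plg_thm (h1 : PUGStmt) (h2 : PFGStmt) : PLGStmt := by
  intro S C R hS hC hR
  have hup := h1 S C R hS hC hR
  obtain ⟨-, hn, -⟩ := h2 S C hS hC
  -- the list of the iterates
  have hstep : PTime (plgS S C) := by
    refine PTime.pair (PTime.fst PTime.id) (PTime.cons ?_ (PTime.snd PTime.id))
    refine hn.comp (f := fun s : Game × List (List Bool) => (s.1, s.2.headD [])) ?_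
    refine PTime.pair (PTime.fst PTime.id) ?_
    exact (PTime.getD (PTime.head? (PTime.snd PTime.id)) (PTime.const [])).congr fun x => by
      cases x.2 <;> rfl
  have hlist : PTime (fun p : Game × List Bool => plgL S C p.1 p.2 (p.1.length + 1)) := by
    have h := PTime.iter (f := plgS S C) (s := fun p : Game × List Bool => (p.1, [p.2]))
      (n := fun p => p.1.length) hstep
      (PTime.pair (PTime.fst PTime.id) (PTime.cons (PTime.snd PTime.id) (PTime.const [])))
      (PTime.length (PTime.fst PTime.id))
      (h := fun p => 2 + sz p + sz p * (2 + sz p + sz p * 4))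
      (((PB.const 2).add PB.sz_self).add (PB.sz_self.mul
        (((PB.const 2).add PB.sz_self).add (PB.sz_self.mul (PB.const 4))))) (by
        rintro ⟨g, X⟩ i hi
        simp only at hi
        rw [plg_it]
        have hg : sz g ≤ sz (g, X) := by simp only [sz_pair]; omega
        have hX : sz X ≤ sz (g, X) := by simp only [sz_pair]; omega
        have hgX : 1 + sz g + sz X = sz (g, X) := by simp only [sz_pair]
        have h3 : sz (plgL S C g X (i + 1)) ≤
            1 + sz (g, X) * (1 + (1 + sz (g, X) + sz (g, X) * 4)) := by
          refine sz_list_le _ _ _ ?_ ?_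
          · have := length_lt_sz g
            simp only [plgL, List.length_map, List.length_reverse, List.length_range]
            omega
          · intro y hy
            obtain ⟨k, -, rfl⟩ := List.mem_map.1 hy
            cases k with
            | zero =>
              simp only [Function.iterate_zero, _root_.id]
              omega
            | succ k =>
              rw [Function.iterate_succ_apply']
              have := plg_sz g (nx S C g ((nx S C g)^[k] X)) (plg_nx _ _ _ _).le
              omega
        rw [sz_pair]
        simp only
        have h4 : sz (g, X) * (1 + (1 + sz (g, X) + sz (g, X) * 4)) =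
          sz (g, X) * (2 + sz (g, X) + sz (g, X) * 4) := by ring
        rw [h4] at h3
        omega)
    exact (PTime.snd h).congr fun p => by rw [plg_it]
  have hfold := PTime.foldl (f := fun (p : Game × List Bool) (L Z : List Bool) => upp S C R p.1 Z L)
    (init := fun _ : Game × List Bool => ([] : List Bool))
    (l := fun p => plgL S C p.1 p.2 (p.1.length + 1))
    (hup.comp (f := fun q : (Game × List Bool) × List Bool × List Bool =>
      (q.1.1, q.2.2, q.2.1)) (by fun_prop))
    (PTime.const []) hlist (h := fun p => 1 + sz p * 4)
    ((PB.const 1).add (PB.sz_self.mul (PB.const 4))) (by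
      rintro ⟨g, X⟩ l' -
      have hg : sz g ≤ sz (g, X) := by simp only [sz_pair]; omega
      have h3 : ∀ (l : List (List Bool)) (L : List Bool), L.length ≤ g.length →
          (l.foldl (fun L Z => upp S C R g Z L) L).length ≤ g.length := by
        intro l
        induction l with
        | nil => intro L hL; simpa using hL
        | cons Z l ih =>
          intro L _
          rw [List.foldl_cons]
          exact ih _ (plg_up _ _ _ _ _ _)
      have h4 := plg_sz g _ (h3 l' [] (by simp))
      simp only
      omega)
  exact hfold.congr fun p => by
    rw [lvg, plg_rc]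

end Pool.BHG
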